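import Pool.Agent.Lib.P2baC.Cycles

set_option autoImplicit false

/-!
Surjective `H`-Colouring is NP-hard for graphs `H`, with loops allowed anywhere, that wind once
around a long cycle; in particular for long cycles with arbitrary loops.

Idea of the proof.  The instance consists of a copy of `H`, one further copy `s` of the closed walk
`σ`, and for every vertex of the given graph and for every edge and colour a gadget, the part of the
cubic lattice in the torus `(ℤ/L)^3` formed by the triples of residues of equal parity; the gadgets
share their diagonal, which is `s`.  A homomorphism to `H`, followed by `p`, lifts to the universal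
cover of a gadget, and its periods are integers `w 0, w 1, w 2` with `|± w 0 ± w 1 ± w 2| ≤ 1`
for all signs, because the closed walk in the direction of a sign vector has length `L < 2 n`.  So
either all periods of all gadgets are `0`, or each gadget has exactly one non-zero period; the index
of this period is the colour of the vertex, and the gadgets of the edges, glued to those of the
vertices along an axis, make the colouring proper.  If all periods are `0`, the whole map lifts to
the integers, and it takes values in an interval with at most `n - 1` elements, so it is not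
surjective.
-/

namespace Pool.Agent.Results.MP_2ba8ab_lc.CircularTargets

open Pool.Agent.Lib.P2ba8ab Pool.Agent.Lib.PolyTime

/-- Polynomial-time many-one reducibility between problems whose inputs are finite simple graphs
(given by their adjacency matrices): some map `f` from graphs to graphs is computed by a Turing
machine in polynomial time, and `g` is a yes-instance of `P` iff `f g` is one of `Q`. -/
def Reduces (P Q : Gr → Prop) : Prop :=
  ∃ f : Gr → Gr, Nonempty (Turing.TM2ComputableInPolyTime Gr.encode Gr.encode f) ∧
    ∀ g, P g ↔ Q (f g)

/-- Let `H` be a finite graph, loops allowed, `p` a map of `H` onto the cycle `ℤ/n` which sends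
adjacent vertices to equal or neighbouring ones, and `σ` a closed walk in `H` of even length
`L ≤ (6 n - 8) / 5` such that every vertex has distance at most `r ≤ (2 n - L - 4) / 4` from `σ`
(`r ≥ 1`).  Then 3-colourability reduces in polynomial time to Surjective `H`-Colouring. -/
theorem result {V : Type} [Finite V] (H : V → V → Prop) (hs : ∀ a b, H a b → H b a)
    (n L r : ℕ) (p : V → ZMod n) (hp : ∀ a b, H a b → p b = p a ∨ p b = p a + 1 ∨ p b = p a - 1)
    (hsurj : Function.Surjective p) (σ : ZMod L → V) (hσ : ∀ i, H (σ i) (σ (i + 1)))
    (hdist : ∀ a, ∃ m, m ≤ r ∧ ∃ i, Walk H m a (σ i)) (hL : Even L) (hL0 : 0 < L) (hr : 1 ≤ r)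
    (h1 : 4 * r + L + 4 ≤ 2 * n) (h2 : 5 * L + 8 ≤ 6 * n) :
    Reduces (fun g => g.G.Colorable 3) (fun g => SurjHom g.G H) :=
  P2baC.main ⟨hs, hp, hsurj, hσ, hdist, hL, hL0, hr, h1, h2⟩

/-- the case of cycles with arbitrary loops: `n ≥ 8` even, or `n ≥ 13` odd and at least one loop -/
theorem cycles {n : ℕ} (S : Set (ZMod n)) (h : (8 ≤ n ∧ Even n) ∨ (13 ≤ n ∧ Odd n ∧ S.Nonempty)) :
    Reduces (fun g => g.G.Colorable 3)
      (fun g => SurjHom g.G (fun a b => b = a + 1 ∨ b = a - 1 ∨ (b = a ∧ a ∈ S))) :=
  P2baC.cycles S h

end Pool.Agent.Results.MP_2ba8ab_lc.CircularTargets
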