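import Pool.Agent.Lib.P2baQ.Tall

set_option autoImplicit false

/-!
Surjective colouring of a graph `C` to which long pendant paths (or trees) have been attached at some
marked vertices: the problem whether a map of marked vertices extends to a homomorphism to `C`
reduces to it.

Idea.  The instance is the given graph together with `H`, every vertex of the given graph being
joined to one vertex of the core by a path of length at most `e`.  The preimages of the vertices of
height `L` under a surjective homomorphism, joined inside the instance, form a connected set which is
at most as large as the smallest connected set of `H` which contains these vertices; since `L > 2 e`,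
the preimages are the vertices of height `L` themselves, and the homomorphism is injective on the
connected set; so it permutes the long paths and the marked vertices.  A power of the induced map of
the core to itself, composed with the homomorphism, fixes the marked vertices.
-/

namespace Pool.Agent.Results.MP_2ba8ab_lc.MarkedVertices

open Pool.Agent.Lib.P2ba8ab Pool.Agent.Lib.P2baR Pool.Agent.Lib.P2baL Pool.Agent.Lib.P2baQ

/-- (1) Let `H` be a finite bipartite graph which consists of an arbitrary core and of pendant trees
above at least two marked vertices of the core, each tree having height `L` and exactly one vertex of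
height `L` (for example pendant paths of length `L`), let every vertex of the core be joined to the
vertex `v0` of the core by a walk of length `e - 1` or `e` in the core, `e ≥ 2`, and let `L > 2 e`.
Then the extension problem for the core and its marked vertices reduces to Surjective `H`-Colouring
in polynomial time. If moreover every endomorphism of the core which fixes the marked vertices is
injective then the retraction problem for the core reduces to Surjective `H`-Colouring, and one of
these two problems is in P if and only if the other one is.
(2) The same for graphs `H` with loops (the condition `HLoop` holds if all vertices of the core have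
loops or none), with walks of length `e ≥ 1`. -/
theorem result :
    (∀ (V : Type) [Finite V] (H : V → V → Prop) (par : V → V) (ht : V → ℕ) (L : ℕ)
      (cl : V → Bool) (v0 : V) (e : ℕ), MkTrees H par ht L → (∀ a b, H a b → cl a ≠ cl b) →
      ht v0 = 0 → 2 ≤ e →
      (∀ a, ht a = 0 → Walk (HC H ht) (e - 1) a v0 ∨ Walk (HC H ht) e a v0) → 2 * e < L →
      (∀ (m : ℕ) (em : Fin m ≃ {v : V // Mk par ht L v}),
        Reduces (Ext H ht em) (fun g => SurjHom g.G H)) ∧
      (Pins H par ht L → ∀ (n0 : ℕ) (en : Fin n0 ≃ Core ht),
        Reduces (Ret H ht en) (fun g => SurjHom g.G H) ∧
        (InP (Ret H ht en) ↔ InP (fun g => SurjHom g.G H)))) ∧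
    ∀ (V : Type) [Finite V] (H : V → V → Prop) (par : V → V) (ht : V → ℕ) (L : ℕ)
      (v0 : V) (e : ℕ), MkTrees H par ht L → HLoop H par ht L → ht v0 = 0 → 1 ≤ e →
      (∀ a, ht a = 0 → Walk (HC H ht) e a v0) → 2 * e < L →
      (∀ (m : ℕ) (em : Fin m ≃ {v : V // Mk par ht L v}),
        Reduces (Ext H ht em) (fun g => SurjHom g.G H)) ∧
      (Pins H par ht L → ∀ (n0 : ℕ) (en : Fin n0 ≃ Core ht),
        Reduces (Ret H ht en) (fun g => SurjHom g.G H) ∧
        (InP (Ret H ht en) ↔ InP (fun g => SurjHom g.G H))) := by
  constructor
  · intro V _ H par ht L cl v0 e T hcls hv0 he hwalk hL
    have D := T.dat_bip hcls hv0 he hwalk hL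
    refine ⟨fun m em => (ext_bip D hcls em).toReduces, fun hpin n0 en => ?_⟩
    have h := pin_bip D hcls hpin en
    exact ⟨h.toReduces, fun h' => inP_surj T.trees ⟨v0, hv0⟩ en h', fun h' => h.inP h'⟩
  · intro V _ H par ht L v0 e T hloop hv0 he hwalk hL
    have D := T.dat_loop hv0 he hwalk hL
    refine ⟨fun m em => (ext_loop D hloop em).toReduces, fun hpin n0 en => ?_⟩
    have h := pin_loop D hloop hpin en
    exact ⟨h.toReduces, fun h' => inP_surj T.trees ⟨v0, hv0⟩ en h', fun h' => h.inP h'⟩

end Pool.Agent.Results.MP_2ba8ab_lc.MarkedVertices
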