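import Pool.Agent.Lib.P2ba8ab.Poly

set_option autoImplicit false

/-!
Surjective `H`-Colouring is NP-hard for every finite graph `H` that has a connected component
which is not loop-connected.
-/

namespace Pool.Agent.Results.MP_2ba8ab_lc.NotLoopConnected

open Pool.Agent.Lib.P2ba8ab Pool.Agent.Lib.PolyTime

/-- Polynomial-time many-one reducibility between problems whose inputs are finite simple graphs
(given by their adjacency matrices): some map `f` from graphs to graphs is computed by a Turing
machine in polynomial time, and `g` is a yes-instance of `P` iff `f g` is one of `Q`. -/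
def Reduces (P Q : Gr → Prop) : Prop :=
  ∃ f : Gr → Gr, Nonempty (Turing.TM2ComputableInPolyTime Gr.encode Gr.encode f) ∧
    ∀ g, P g ↔ Q (f g)

theorem walk_of_conn {V : Type} {H : V → V → Prop} {u v : V} (h : Relation.ReflTransGen H u v) :
    ∃ n, Walk H n u v := by
  induction h with
  | refl => exact ⟨0, rfl⟩
  | tail _ h2 ih =>
    obtain ⟨n, hn⟩ := ih
    exact ⟨n + 1, hn.snoc h2⟩

/-- Let `H` be a finite graph, self-loops allowed, with two reflexive vertices `u`, `v` that are
joined by a walk in `H` but not by a walk through reflexive vertices. Then 3-colourability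
reduces in polynomial time to Surjective `H`-Colouring. -/
theorem result {V : Type} [Finite V] (H : V → V → Prop) (hs : ∀ a b, H a b → H b a) (u v : V)
    (hu : H u u) (hv : H v v) (hconn : Relation.ReflTransGen H u v)
    (hloop : ¬ Relation.ReflTransGen (fun a b => H a a ∧ H b b ∧ H a b) u v) :
    Reduces (fun g => g.G.Colorable 3) (fun g => SurjHom g.G H) := by
  classical
  -- the minimal distance of two components of reflexive vertices
  have hex : ∃ n, ∃ a b, H a a ∧ H b b ∧ ¬ SC H a b ∧ Walk H n a b := by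
    obtain ⟨n, hn⟩ := walk_of_conn hconn
    exact ⟨n, u, v, hu, hv, hloop, hn⟩
  obtain ⟨a, b, ha, hb, hab, hw⟩ := Nat.find_spec hex
  have hmin : ∀ m, m < Nat.find hex → ∀ c d, H c c → H d d → Walk H m c d → SC H c d := by
    intro m hm c d hc hd hcd
    by_contra hcon
    exact Nat.find_min hex hm ⟨c, d, hc, hd, hcon, hcd⟩
  have h0 : Nat.find hex ≠ 0 := by
    intro h
    rw [h] at hw
    have hw : a = b := hw
    exact hab (hw ▸ SC.refl _)
  have h1 : Nat.find hex ≠ 1 := by
    intro h
    rw [h] at hw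
    obtain ⟨c, hc, hcb⟩ := hw
    have hcb : c = b := hcb
    exact hab (SC.single ha hb (hcb ▸ hc))
  obtain ⟨e, he⟩ : ∃ e, Nat.find hex = e + 1 := ⟨Nat.find hex - 1, by omega⟩
  obtain ⟨T, hG⟩ := exists_good hs (e := e) (by omega) (hmin e (by omega))
    ⟨a, b, ha, hb, hab, he ▸ hw⟩
  obtain ⟨l, hl⟩ := exists_len (V := V) (H := H)
  -- the tables
  let Γ := {γ : Lab V // γ.Valid H e T}
  obtain ⟨c0, an, an1, an2, an3⟩ := exists_table V (fun v => H v v) (Nat.card V)
  obtain ⟨R, tg, tg1, tg2, tg3⟩ := exists_table (Tag Γ VT CK (Nat.card V + 2) e l)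
    Tag.fat (Nat.card V)
  refine ⟨red H (fun c : Γ => c.1) T an tg, ?_, ?_⟩
  · obtain ⟨⟨tm, time, hout⟩⟩ := PolyC.toTM2 Gr.encode (D := fun _ => True)
      (red H (fun c : Γ => c.1) T an tg) Gr.encode (poly_red H (fun c : Γ => c.1) T an tg)
    exact ⟨⟨tm, time, fun g => hout ⟨g, trivial⟩⟩⟩
  · intro g
    refine (surjHom_iff_colorable hG hl (lb := fun c : Γ => c.1) (fun c => c.2)
      (fun γ hγ => ⟨⟨γ, hγ⟩, rfl⟩) g.G (fun p => adjN g p.1 p.2)
      (fun p => adjN_fin g p.1 p.2)
      ((fibres_nodeOf an1 an2 an3 tg1 tg2 tg3).comp_equiv (idx c0 R g.n).symm)).symm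

end Pool.Agent.Results.MP_2ba8ab_lc.NotLoopConnected
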