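import Pool.Agent.Lib.P2baQ.Tall

set_option autoImplicit false

/-!
Let `H` be a finite graph which consists of a core, in which every vertex has two neighbours, and of
pendant trees, and suppose that above every vertex of the core there is a tree vertex whose height is
at least the distances in the core from some fixed vertex. Then Surjective `H`-Colouring and the
retraction problem for the core are equivalent, if `H` is bipartite or the core is reflexive: the
retraction problem reduces to Surjective `H`-Colouring, and the latter is in P if the former is. The
second part needs no tall trees.

Idea of the first part.  The instance is the given graph with the trees of `H` attached to its copy of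
the core, every vertex being joined to one vertex of the core by a path of length at most `e`.
Among the sets `Y` of tree vertices take one which maximises the number of tree vertices below `Y`
minus `e |Y|`, and with the largest number of elements; it has elements above all vertices of the
core.  The preimages of its elements under a surjective homomorphism, joined inside the instance,
form a connected set which is at most as large as the smallest connected set of `H` with these
elements; so the homomorphism is injective on the connected set, hence on the core, and since every
vertex of the core has two neighbours in the core, it is an automorphism of the core.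

Idea of the second part.  Guess a preimage of every vertex of `H`; the vertices near to the preimages
of tree vertices have lower bounds in the trees and can be mapped to the highest of them; the others
can be mapped to the core.
-/

namespace Pool.Agent.Results.MP_2ba8ab_lc.TallTrees

open Pool.Agent.Lib.P2ba8ab Pool.Agent.Lib.P2baR Pool.Agent.Lib.P2baL Pool.Agent.Lib.P2baQ

/-- (1) For every finite graph `H`, loops allowed, with a nonempty core and pendant trees
(`TreesP`): if the retraction problem for the core is in P then Surjective `H`-Colouring is in P.
(2) Let `H` be bipartite, let every vertex of the core have two neighbours in the core, let every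
vertex of the core be joined to the vertex `v0` of the core by a walk of length `e - 1` or `e` in the
core, `e ≥ 2`, and let every vertex of the core lie below a vertex of height at least `e`. Then the
retraction problem for the core reduces to Surjective `H`-Colouring in polynomial time, and one of
the two problems is in P if and only if the other one is.
(3) The same for graphs `H` with loops, in which every permutation of the core which preserves the
edges between different vertices preserves the loops (for example: all or no vertices of the core
have loops), with walks of length `e ≥ 1`. -/
theorem result :
    (∀ (V : Type) [Finite V] (H : V → V → Prop) (par : V → V) (ht : V → ℕ),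
      TreesP H par ht → (∃ v, ht v = 0) → ∀ (n0 : ℕ) (en : Fin n0 ≃ Core ht),
        InP (Ret H ht en) → InP (fun g => SurjHom g.G H)) ∧
    (∀ (V : Type) [Finite V] (H : V → V → Prop) (par : V → V) (ht : V → ℕ) (cl : V → Bool)
      (v0 : V) (e : ℕ), TreesL H par ht → (∀ a b, H a b → cl a ≠ cl b) → ht v0 = 0 → 2 ≤ e →
      (∀ a, ht a = 0 → Walk (HC H ht) (e - 1) a v0 ∨ Walk (HC H ht) e a v0) →
      (∀ v, ht v = 0 → ∃ x, root par ht x = v ∧ e ≤ ht x) →
      ∀ (n0 : ℕ) (en : Fin n0 ≃ Core ht),
        Reduces (Ret H ht en) (fun g => SurjHom g.G H) ∧
        (InP (Ret H ht en) ↔ InP (fun g => SurjHom g.G H))) ∧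
    ∀ (V : Type) [Finite V] (H : V → V → Prop) (par : V → V) (ht : V → ℕ)
      (v0 : V) (e : ℕ), TreesL H par ht →
      (∀ φ : Core ht ≃ Core ht,
        (∀ v w : Core ht, v ≠ w → H v.1 w.1 → H (φ v).1 (φ w).1) →
        ∀ v : Core ht, H v.1 v.1 → H (φ v).1 (φ v).1) → ht v0 = 0 → 1 ≤ e →
      (∀ a, ht a = 0 → Walk (HC H ht) e a v0) →
      (∀ v, ht v = 0 → ∃ x, root par ht x = v ∧ e ≤ ht x) →
      ∀ (n0 : ℕ) (en : Fin n0 ≃ Core ht),
        Reduces (Ret H ht en) (fun g => SurjHom g.G H) ∧
        (InP (Ret H ht en) ↔ InP (fun g => SurjHom g.G H)) := by
  refine ⟨fun V _ H par ht T hcore n0 en h => inP_surj T hcore en h, ?_, ?_⟩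
  · intro V _ H par ht cl v0 e T hcls hv0 he hwalk htall n0 en
    have h := tall_bip T hcls hv0 he hwalk htall en
    exact ⟨h.toReduces, fun h' => inP_surj (toP T) ⟨v0, hv0⟩ en h', fun h' => h.inP h'⟩
  · intro V _ H par ht v0 e T hloop hv0 he hwalk htall n0 en
    have h := tall_loop T hloop hv0 he hwalk htall en
    exact ⟨h.toReduces, fun h' => inP_surj (toP T) ⟨v0, hv0⟩ en h', fun h' => h.inP h'⟩

end Pool.Agent.Results.MP_2ba8ab_lc.TallTrees
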